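import Pool.Agent.X143.SD.Stm

set_option autoImplicit false

open Finset MeasureTheory

namespace Pool.Agent.X58.SD

open Pool.Agent.X143.SD

lemma cc_nonneg (s : ℝ) : 0 ≤ cc s := by
  unfold cc
  have h1 : 1 + s ≤ Real.exp s := by linarith [Real.add_one_le_exp s]
  have h2 : 0 < Real.exp (-s) := Real.exp_pos _
  have h3 : (1 + s) * Real.exp (-s) ≤ Real.exp s * Real.exp (-s) :=
    mul_le_mul_of_nonneg_right h1 h2.le
  rw [← Real.exp_add, add_neg_cancel, Real.exp_zero] at h3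
  linarith

lemma cc_mono {s h : ℝ} (hs : 0 ≤ s) (hh : s ≤ h) : cc s ≤ cc h := by
  unfold cc
  have h1 : 1 + (h - s) ≤ Real.exp (h - s) := by linarith [Real.add_one_le_exp (h - s)]
  have h2 : Real.exp (-s) = Real.exp (-h) * Real.exp (h - s) := by
    rw [← Real.exp_add]; ring_nf
  have h3 : 0 < Real.exp (-h) := Real.exp_pos _
  have h4 : 1 + h ≤ (1 + s) * Real.exp (h - s) := by
    have h5 : (1 + s) * (1 + (h - s)) ≤ (1 + s) * Real.exp (h - s) :=
      mul_le_mul_of_nonneg_left h1 (by linarith)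
    nlinarith [mul_nonneg hs (sub_nonneg.2 hh)]
  have h6 := mul_le_mul_of_nonneg_left h4 h3.le
  rw [h2]
  nlinarith

lemma cc_deriv (s : ℝ) : HasDerivAt cc (s * Real.exp (-s)) s := by
  have h1 : HasDerivAt (fun u : ℝ => Real.exp (-u)) (Real.exp (-s) * (-1)) s :=
    (hasDerivAt_neg s).exp
  have h2 : HasDerivAt (fun u : ℝ => 1 + u) 1 s := (hasDerivAt_id s).const_add 1
  have h3 := (h2.mul h1).const_sub 1
  have h4 : (fun u : ℝ => 1 - (1 + u) * Real.exp (-u)) = cc := rfl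
  refine (h3.congr_deriv ?_)
  ring

lemma cc_cont : Continuous cc := by
  unfold cc
  fun_prop

lemma one_le_PP {d : ℕ} (hd : 1 ≤ d) {x : ℝ} (hx : 0 ≤ x) : 1 ≤ PP d x := by
  unfold PP
  have h := Finset.single_le_sum (f := fun j : ℕ => x ^ j) (s := range d)
    (fun j _ => pow_nonneg hx j) (Finset.mem_range.2 (by omega : 0 < d))
  simpa using h

lemma PP_mul (d : ℕ) (x : ℝ) : PP d x * (1 - x) = 1 - x ^ d := by
  unfold PP
  have h := geom_sum_mul x d
  linarith

/-- the lower bound of the integral -/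
noncomputable def F (e : ℕ) (κ s : ℝ) : ℝ :=
  2 - (2 + s) * Real.exp (-s) + κ * (-(Real.log (1 - cc s ^ (e + 1)) / ((e + 1 : ℕ) : ℝ)) -
    2 * cc s ^ (e + 1) / ((e + 1 : ℕ) : ℝ) + 2 * cc s ^ (e + 2) / ((e + 2 : ℕ) : ℝ))

/-- its derivative -/
noncomputable def F' (e : ℕ) (κ s : ℝ) : ℝ :=
  (1 + s) * Real.exp (-s) + κ * (cc s ^ e * (s * Real.exp (-s)) / (1 - cc s ^ (e + 1)) -
    2 * cc s ^ e * (s * Real.exp (-s)) + 2 * cc s ^ (e + 1) * (s * Real.exp (-s)))

lemma F_deriv (e : ℕ) (κ s : ℝ) (h : cc s ^ (e + 1) < 1) : HasDerivAt (F e κ) (F' e κ s) s := by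
  have he1 : ((e + 1 : ℕ) : ℝ) ≠ 0 := by positivity
  have he2 : ((e + 2 : ℕ) : ℝ) ≠ 0 := by positivity
  have h1 : HasDerivAt (fun u : ℝ => Real.exp (-u)) (Real.exp (-s) * (-1)) s :=
    (hasDerivAt_neg s).exp
  have h2 : HasDerivAt (fun u : ℝ => 2 + u) 1 s := (hasDerivAt_id s).const_add 2
  have h3 := (h2.mul h1).const_sub 2
  have h4 : HasDerivAt (fun u => cc u ^ (e + 1)) (((e + 1 : ℕ) : ℝ) * cc s ^ e *
      (s * Real.exp (-s))) s := by
    exact ((cc_deriv s).fun_pow (e + 1)).congr_deriv (by simp)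
  have h5 : HasDerivAt (fun u => cc u ^ (e + 2)) (((e + 2 : ℕ) : ℝ) * cc s ^ (e + 1) *
      (s * Real.exp (-s))) s := by
    exact ((cc_deriv s).fun_pow (e + 2)).congr_deriv (by simp)
  have h6 := ((h4.const_sub 1).log (by linarith)).div_const ((e + 1 : ℕ) : ℝ)
  have h7 := (h4.const_mul 2).div_const ((e + 1 : ℕ) : ℝ)
  have h8 := (h5.const_mul 2).div_const ((e + 2 : ℕ) : ℝ)
  have h9 := h3.add (((h6.neg.sub h7).add h8).const_mul κ)
  refine h9.congr_deriv ?_
  unfold F'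
  have hne : (1 - cc s ^ (e + 1)) ≠ 0 := by linarith
  field_simp
  ring

lemma F_zero (e : ℕ) (κ : ℝ) : F e κ 0 = 0 := by
  have h : cc 0 = 0 := by unfold cc; simp
  unfold F
  rw [h]
  simp

lemma F'_le (e : ℕ) {h s : ℝ} (hs : 0 < s) (hsh : s ≤ h) (hc : cc h ^ (e + 1) ≤ 1 / 2) :
    F' e ((1 + h) / h) s ≤ 1 / PP (e + 1) (cc s) := by
  have hc0 := cc_nonneg s
  have hcs : cc s ^ (e + 1) ≤ 1 / 2 :=
    (pow_le_pow_left₀ hc0 (cc_mono hs.le hsh) _).trans hc
  have hPP := one_le_PP (d := e + 1) (by omega) hc0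
  have hmul := PP_mul (e + 1) (cc s)
  have hE : 0 < Real.exp (-s) := Real.exp_pos _
  have hB : 1 - cc s = (1 + s) * Real.exp (-s) := by unfold cc; ring
  set c := cc s with hcdef
  set E := Real.exp (-s) with hEdef
  have hh : 0 < h := lt_of_lt_of_le hs hsh
  have hD : 0 < 1 - c ^ (e + 1) := by linarith
  -- 1 / PP = B / D
  have h1 : 1 / PP (e + 1) c = (1 - c) / (1 - c ^ (e + 1)) := by
    rw [div_eq_div_iff (by linarith) hD.ne']
    linarith
  have h2 : (1 - c) / (1 - c ^ (e + 1)) = (1 - c) + (1 - c) * (c ^ (e + 1) / (1 - c ^ (e + 1))) := by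
    field_simp
    ring
  have hk : (1 + h) / h * s ≤ 1 + s := by
    rw [div_mul_eq_mul_div, div_le_iff₀ hh]
    nlinarith
  have hk0 : 0 ≤ (1 + h) / h * s := by positivity
  have hR : 0 ≤ c ^ (e + 1) / (1 - c ^ (e + 1)) := div_nonneg (pow_nonneg hc0 _) hD.le
  have hT : c ^ e / (1 - c ^ (e + 1)) - 2 * c ^ e + 2 * c ^ (e + 1) ≤
      c ^ (e + 1) / (1 - c ^ (e + 1)) := by
    have h3 : c ^ (e + 1) = c ^ e * c := pow_succ _ _
    have h4 : 0 ≤ c ^ e := pow_nonneg hc0 _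
    have h5 : c ^ e * (1 - c) / (1 - c ^ (e + 1)) ≤ 2 * (c ^ e * (1 - c)) := by
      rw [div_le_iff₀ hD]
      have h6 : 0 ≤ c ^ e * (1 - c) := mul_nonneg h4 (by rw [hB]; positivity)
      nlinarith
    have h7 : c ^ e * (1 - c) / (1 - c ^ (e + 1)) =
        c ^ e / (1 - c ^ (e + 1)) - c ^ (e + 1) / (1 - c ^ (e + 1)) := by
      rw [← sub_div, h3]; ring
    rw [h7] at h5
    have h8 : 2 * (c ^ e * (1 - c)) = 2 * c ^ e - 2 * c ^ (e + 1) := by rw [h3]; ring
    linarith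
  rw [h1, h2, hB]
  unfold F'
  rw [← hcdef, ← hEdef]
  have h9 : (1 + h) / h * (c ^ e * (s * E) / (1 - c ^ (e + 1)) - 2 * c ^ e * (s * E) +
      2 * c ^ (e + 1) * (s * E)) = ((1 + h) / h * s) * E *
      (c ^ e / (1 - c ^ (e + 1)) - 2 * c ^ e + 2 * c ^ (e + 1)) := by ring
  rw [h9]
  have h10 : ((1 + h) / h * s) * E * (c ^ e / (1 - c ^ (e + 1)) - 2 * c ^ e + 2 * c ^ (e + 1)) ≤
      ((1 + h) / h * s) * E * (c ^ (e + 1) / (1 - c ^ (e + 1))) :=
    mul_le_mul_of_nonneg_left hT (mul_nonneg hk0 hE.le)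
  have h11 : ((1 + h) / h * s) * E * (c ^ (e + 1) / (1 - c ^ (e + 1))) ≤
      (1 + s) * E * (c ^ (e + 1) / (1 - c ^ (e + 1))) :=
    mul_le_mul_of_nonneg_right (mul_le_mul_of_nonneg_right hk hE.le) hR
  linarith

lemma PP_cont (e : ℕ) : Continuous fun s : ℝ => 1 / PP (e + 1) (cc s) := by
  have h1 : Continuous fun s : ℝ => PP (e + 1) (cc s) := by
    unfold PP
    exact continuous_finsetSum _ fun j _ => cc_cont.pow j
  exact continuous_const.div h1 fun s =>
    (lt_of_lt_of_le one_pos (one_le_PP (by omega) (cc_nonneg s))).ne'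

lemma TT_ge (e : ℕ) {h : ℝ} (hh : 0 < h) (hc : cc h ^ (e + 1) ≤ 1 / 2) :
    F e ((1 + h) / h) h ≤ TT (e + 1) h := by
  have hlt : ∀ s ∈ Set.Icc 0 h, cc s ^ (e + 1) < 1 := fun s hs =>
    lt_of_le_of_lt ((pow_le_pow_left₀ (cc_nonneg s) (cc_mono hs.1 hs.2) _).trans hc) (by norm_num)
  have hint : IntegrableOn (fun s : ℝ => 1 / PP (e + 1) (cc s)) (Set.Icc 0 h) volume :=
    (PP_cont e).continuousOn.integrableOn_Icc
  have hF : ContinuousOn (F e ((1 + h) / h)) (Set.Icc 0 h) := fun s hs =>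
    (F_deriv e _ s (hlt s hs)).continuousAt.continuousWithinAt
  have h1 := intervalIntegral.sub_le_integral_of_hasDeriv_right_of_le (a := 0) (b := h)
    (g := F e ((1 + h) / h)) (g' := F' e ((1 + h) / h)) (φ := fun s => 1 / PP (e + 1) (cc s)) hh.le
    hF
    (fun s hs => (F_deriv e _ s (hlt s ⟨hs.1.le, hs.2.le⟩)).hasDerivWithinAt)
    hint
    (fun s hs => F'_le e hs.1 hs.2.le hc)
  rw [F_zero, sub_zero] at h1
  exact h1

lemma TT_mono (e : ℕ) {h u : ℝ} (hhu : h ≤ u) : TT (e + 1) h ≤ TT (e + 1) u := by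
  unfold TT
  have h1 := intervalIntegral.integral_add_adjacent_intervals (μ := volume)
    ((PP_cont e).intervalIntegrable 0 h) ((PP_cont e).intervalIntegrable h u)
  have h2 : 0 ≤ ∫ s in h..u, 1 / PP (e + 1) (cc s) :=
    intervalIntegral.integral_nonneg hhu fun s _ =>
      div_nonneg zero_le_one (zero_le_one.trans (one_le_PP (by omega) (cc_nonneg s)))
  linarith

lemma F_gt {h : ℝ} (hh : 0 < h) (h12 : h ≤ 12) (hc : cc h ^ (999 + 1) = 1 / 2) :
    2 < F 999 ((1 + h) / h) h := by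
  have hL1 := Real.log_two_gt_d9
  have hL2 := Real.log_two_lt_d9
  have hE : 0 < Real.exp (-h) := Real.exp_pos _
  have hcc : 1 - cc h = (1 + h) * Real.exp (-h) := by unfold cc; ring
  have hc0 := cc_nonneg h
  have hcpos : 0 < cc h := by
    rcases hc0.lt_or_eq with h0 | h0
    · exact h0
    · rw [← h0] at hc; norm_num at hc
  have hlog : Real.log (cc h) = -(Real.log 2) / 1000 := by
    have h1 := congrArg Real.log hc
    rw [Real.log_pow, Real.log_div one_ne_zero two_ne_zero, Real.log_one] at h1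
    push_cast at h1
    linarith
  have hy : 1 - cc h ≤ Real.log 2 / 1000 := by
    have h1 := Real.log_le_sub_one_of_pos hcpos
    rw [hlog] at h1
    linarith
  have hlog2 : Real.log (1 - cc h ^ (999 + 1)) = -Real.log 2 := by
    rw [hc, show (1 : ℝ) - 1 / 2 = 2⁻¹ by norm_num, Real.log_inv]
  have hc2 : cc h ^ (999 + 2) = cc h / 2 := by
    rw [show 999 + 2 = (999 + 1) + 1 by norm_num, pow_succ, hc]; ring
  unfold F
  rw [hlog2, hc2, hc]
  set L := Real.log 2 with hL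
  set C := cc h with hC
  set E := Real.exp (-h) with hEd
  have hV : (2 + h) * E = (2 + h) / (1 + h) * (1 - C) := by
    rw [hcc]; field_simp
  have h3 : (2 + h) * E ≤ (2 + h) / (1 + h) * (L / 1000) := by
    rw [hV]
    exact mul_le_mul_of_nonneg_left hy (by positivity)
  have h4 : (1 + h) / h * ((L - 1 / 1000) / 1001) ≤ (1 + h) / h * (-(-L / ((999 + 1 : ℕ) : ℝ)) -
      2 * (1 / 2) / ((999 + 1 : ℕ) : ℝ) + 2 * (C / 2) / ((999 + 2 : ℕ) : ℝ)) := by
    apply mul_le_mul_of_nonneg_left _ (by positivity)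
    push_cast
    linarith
  have h5 : (2 + h) / (1 + h) * (L / 1000) < (1 + h) / h * ((L - 1 / 1000) / 1001) := by
    rw [div_mul_div_comm, div_mul_div_comm, div_lt_div_iff₀ (by positivity) (by positivity)]
    have ht : h * (2 + h) ≤ 168 := by nlinarith
    have ht0 : 0 < h * (2 + h) := by positivity
    nlinarith [mul_le_mul_of_nonneg_right ht (show (0 : ℝ) ≤ L + 1 by linarith)]
  linarith

theorem t_BB : S_BB := by
  refine ⟨999 + 1, by norm_num, fun u hu hT => ?_⟩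
  by_contra hcon
  rw [not_lt] at hcon
  -- the point where the power is one half
  have h12 : (1 : ℝ) / 2 ≤ cc (min u 12) ^ (999 + 1) := by
    rcases le_total u 12 with h | h
    · rw [min_eq_left h]; exact hcon
    · rw [min_eq_right h]
      have h1 : cc 12 = 1 + (-(13 * Real.exp (-12))) := by unfold cc; ring
      have h2 : Real.exp (-12) ≤ 1 / 26000 := by
        rw [Real.exp_neg, inv_eq_one_div]
        apply one_div_le_one_div_of_le (by norm_num)
        have h3 : (2.7 : ℝ) ≤ Real.exp 1 := by linarith [Real.exp_one_gt_d9]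
        calc (26000 : ℝ) ≤ 2.7 ^ 12 := by norm_num
          _ ≤ Real.exp 1 ^ 12 := pow_le_pow_left₀ (by norm_num) h3 _
          _ = Real.exp 12 := by rw [← Real.exp_nat_mul]; norm_num
      have h3 := one_add_mul_le_pow (a := -(13 * Real.exp (-12))) (by linarith [Real.exp_pos (-12)])
        (999 + 1)
      rw [← h1] at h3
      push_cast at h3
      linarith
  have hcont : ContinuousOn (fun s => cc s ^ (999 + 1)) (Set.Icc 0 (min u 12)) :=
    (cc_cont.pow _).continuousOn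
  have h0 : cc 0 ^ (999 + 1) ≤ 1 / 2 := by
    have : cc 0 = 0 := by unfold cc; simp
    rw [this, zero_pow (by norm_num)]; norm_num
  obtain ⟨h, hmem, hh⟩ := intermediate_value_Icc (le_min hu (by norm_num)) hcont ⟨h0, h12⟩
  have hhe : cc h ^ (999 + 1) = 1 / 2 := hh
  have hpos : 0 < h := by
    rcases hmem.1.lt_or_eq with h1 | h1
    · exact h1
    · rw [← h1] at hhe
      have : cc 0 = 0 := by unfold cc; simp
      rw [this, zero_pow (by norm_num)] at hhe
      norm_num at hhe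
  have h1 := F_gt hpos (hmem.2.trans (min_le_right _ _)) hhe
  have h2 := TT_ge 999 hpos hhe.le
  have h3 := TT_mono 999 (hmem.2.trans (min_le_left _ _))
  have h4 : TT (999 + 1) u = 2 := hT
  linarith

end Pool.Agent.X58.SD
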